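import Pool.Agent.Helper2.BI.St

set_option autoImplicit false

namespace Pool.Agent.Helper4.BI

open Finset Filter
open Pool.Agent.Helper2.BI

theorem mem_Es {X H v : ℕ} : v ∈ Es X H ↔ (X < v ∧ v ≤ 2 * X) ∧
    ∀ j < H, ∀ q : ℕ, q.Prime → 2 * X < q ^ 2 → ¬ q ∣ v - j := by
  classical
  unfold Es
  simp only [Finset.mem_filter, Finset.mem_Ioc]

theorem Es_anti {X H H' : ℕ} (h : H' ≤ H) : Es X H ⊆ Es X H' := by
  intro v hv
  rw [mem_Es] at hv ⊢
  exact ⟨hv.1, fun j hj => hv.2 j (lt_of_lt_of_le hj h)⟩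

theorem Es_card (X H : ℕ) : (Es X H).card ≤ X := by
  have h : (Es X H).card ≤ (Ioc X (2 * X)).card := by
    apply Finset.card_le_card
    intro v hv
    rw [mem_Es] at hv
    exact Finset.mem_Ioc.2 hv.1
  rw [Nat.card_Ioc] at h
  omega

/-- large `q` -/
theorem big_q {X q : ℕ} (hq : 2 * (Nat.sqrt (2 * X) / 2 + 1) < q) : 2 * X < q ^ 2 := by
  have h1 : Nat.sqrt (2 * X) < q := by omega
  rw [Nat.sqrt_lt] at h1
  rw [sq]
  exact h1

theorem hSM : SM := by
  rintro ⟨C, hC, hLS⟩ ⟨Y₀, hY2, hCP⟩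
  have hlog2 : 0 < Real.log 2 := Real.log_pos (by norm_num)
  refine ⟨6432 * C + 4 * (Y₀ : ℝ) ^ 2 / Real.log 2, by positivity, ?_⟩
  intro X H hX hH
  have hXR : (2 : ℝ) ≤ X := by exact_mod_cast hX
  have hHR : (1 : ℝ) ≤ H := by exact_mod_cast hH
  have hlX : Real.log 2 ≤ Real.log X := Real.log_le_log (by norm_num) hXR
  have hlX0 : 0 < Real.log X := lt_of_lt_of_le hlog2 hlX
  have hnn : 0 ≤ (X : ℝ) * Real.log X / H := by positivity
  have hempty : Es X H = ∅ → ((Es X H).card : ℝ) ≤
      (6432 * C + 4 * (Y₀ : ℝ) ^ 2 / Real.log 2) * (X * Real.log X / H) := by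
    intro h
    rw [h, Finset.card_empty, Nat.cast_zero]
    positivity
  obtain ⟨s, hs⟩ : ∃ s, s = Nat.sqrt (2 * X) := ⟨_, rfl⟩
  have hs1 : s * s ≤ 2 * X := by rw [hs]; exact Nat.sqrt_le _
  have hs2 : 2 * X < (s + 1) * (s + 1) := by rw [hs]; exact Nat.lt_succ_sqrt _
  obtain ⟨P, hP⟩ : ∃ P, P = s / 2 + 1 := ⟨_, rfl⟩
  have hsX : s ≤ X := by
    by_contra hlt
    have h1 : X + 1 ≤ s := by omega
    have h2 : (X + 1) * (X + 1) ≤ s * s := Nat.mul_le_mul h1 h1
    nlinarith
  have hbig : ∀ q, 2 * P < q → 2 * X < q ^ 2 := by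
    intro q hq
    apply big_q
    rw [← hs, ← hP]
    exact hq
  by_cases hPY : Y₀ ≤ P
  · -- large X
    have hP2 : 2 ≤ P := le_trans hY2 hPY
    have hPX : P ≤ X := by omega
    have hPR : (2 : ℝ) ≤ P := by exact_mod_cast hP2
    have hPXR : (P : ℝ) ≤ X := by exact_mod_cast hPX
    have hlP : 0 < Real.log P := Real.log_pos (by linarith)
    have hlPX : Real.log P ≤ Real.log X := Real.log_le_log (by linarith) hPXR
    have hcard := hCP P hPY
    obtain ⟨S, hS⟩ : ∃ S, S = (Ioc (2 * P) (8 * P)).filter Nat.Prime := ⟨_, rfl⟩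
    rw [← hS] at hcard
    have hSm : ∀ q ∈ S, q.Prime ∧ 2 * P < q ∧ q ≤ 8 * P := by
      intro q hq
      rw [hS, Finset.mem_filter, Finset.mem_Ioc] at hq
      exact ⟨hq.2, hq.1.1, hq.1.2⟩
    have hPsq : ((8 * P : ℕ) : ℝ) ^ 2 ≤ 200 * X := by
      have h1 : 8 * P ≤ 4 * s + 8 := by omega
      have h2 : (8 * P) * (8 * P) ≤ (4 * s + 8) * (4 * s + 8) := Nat.mul_le_mul h1 h1
      have h3 : (4 * s + 8) * (4 * s + 8) ≤ 200 * X := by nlinarith
      have h4 : (8 * P) * (8 * P) ≤ 200 * X := le_trans h2 h3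
      have h5 : (((8 * P) * (8 * P) : ℕ) : ℝ) ≤ ((200 * X : ℕ) : ℝ) := by exact_mod_cast h4
      push_cast at h5 ⊢
      nlinarith
    -- the sieve
    have key : ∀ H' : ℕ, 1 ≤ H' → H' ≤ 2 * P →
        ((Es X H').card : ℝ) ≤ 1608 * C * (X * Real.log X / H') := by
      intro H' hH1 hH2
      have hH1R : (1 : ℝ) ≤ H' := by exact_mod_cast hH1
      have h := hLS X X 1 H' (8 * P) (Es X H') S (by
          intro v hv
          rw [mem_Es] at hv
          rw [Finset.mem_Ioc]
          omega) (by omega) (by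
          intro q hq
          have h1 := hSm q hq
          exact ⟨h1.1, h1.2.2, by omega⟩) (by
          intro q hq
          have h1 := hSm q hq
          refine ⟨range H', ?_, Finset.card_range _, ?_⟩
          · intro a ha
            rw [Finset.mem_range] at ha ⊢
            omega
          · intro n hn hmem
            rw [Finset.mem_range] at hmem
            rw [mem_Es] at hn
            exact hn.2 (n % q) hmem q h1.1 (hbig q h1.2.1) (Nat.dvd_sub_mod n))
      rw [Nat.choose_one_right, pow_one, pow_one] at h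
      have h8P : (0 : ℝ) < ((8 * P : ℕ) : ℝ) := by
        push_cast
        linarith
      have hB0 : (0 : ℝ) ≤ ((Es X H').card : ℝ) := Nat.cast_nonneg _
      have hrhs : C * ((X : ℝ) + ((8 * P : ℕ) : ℝ) ^ 2) ≤ C * (201 * X) := by
        apply mul_le_mul_of_nonneg_left _ hC.le
        linarith
      have hlow : (P : ℝ) / Real.log P * ((H' : ℝ) / ((8 * P : ℕ) : ℝ)) * ((Es X H').card : ℝ) ≤
          C * (201 * X) := by
        refine le_trans ?_ (le_trans h hrhs)
        apply mul_le_mul_of_nonneg_right _ hB0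
        apply mul_le_mul_of_nonneg_right hcard
        positivity
      have heq : (P : ℝ) / Real.log P * ((H' : ℝ) / ((8 * P : ℕ) : ℝ)) * ((Es X H').card : ℝ) =
          (H' : ℝ) * ((Es X H').card : ℝ) / (8 * Real.log P) := by
        push_cast
        have hP0 : (P : ℝ) ≠ 0 := by linarith
        field_simp
      rw [heq, div_le_iff₀ (by positivity)] at hlow
      have hfin : (H' : ℝ) * ((Es X H').card : ℝ) ≤ 1608 * C * (X * Real.log X) := by
        have h9 : C * (201 * X) * (8 * Real.log P) ≤ C * (201 * X) * (8 * Real.log X) := by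
          apply mul_le_mul_of_nonneg_left _ (by positivity)
          linarith
        nlinarith
      rw [← mul_div_assoc, le_div_iff₀ (by linarith)]
      nlinarith
    by_cases hH8 : H ≤ 8 * P
    · obtain ⟨H', hH'⟩ : ∃ H', H' = min H (2 * P) := ⟨_, rfl⟩
      have h1 : 1 ≤ H' := by omega
      have h2 : H' ≤ 2 * P := by omega
      have h3 : H' ≤ H := by omega
      have h4 : H ≤ 4 * H' := by omega
      have h4R : (H : ℝ) ≤ 4 * H' := by exact_mod_cast h4
      have h1R : (1 : ℝ) ≤ H' := by exact_mod_cast h1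
      have h5 : ((Es X H).card : ℝ) ≤ ((Es X H').card : ℝ) := by
        exact_mod_cast Finset.card_le_card (Es_anti h3)
      have h6 := key H' h1 h2
      have h7 : (X : ℝ) * Real.log X / H' ≤ 4 * (X * Real.log X / H) := by
        rw [div_le_iff₀ (by linarith)]
        have h8 : 4 * ((X : ℝ) * Real.log X / H) * H' = (X * Real.log X) * (4 * H') / H := by
          ring
        rw [h8, le_div_iff₀ (by linarith)]
        apply mul_le_mul_of_nonneg_left h4R
        positivity
      calc ((Es X H).card : ℝ) ≤ 1608 * C * (X * Real.log X / H') := le_trans h5 h6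
        _ ≤ 1608 * C * (4 * (X * Real.log X / H)) :=
            mul_le_mul_of_nonneg_left h7 (by positivity)
        _ = 6432 * C * (X * Real.log X / H) := by ring
        _ ≤ (6432 * C + 4 * (Y₀ : ℝ) ^ 2 / Real.log 2) * (X * Real.log X / H) := by
            apply mul_le_mul_of_nonneg_right _ hnn
            have : 0 ≤ 4 * (Y₀ : ℝ) ^ 2 / Real.log 2 := by positivity
            linarith
    · apply hempty
      have hSpos : (0 : ℝ) < (S.card : ℝ) := by
        refine lt_of_lt_of_le ?_ hcard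
        apply div_pos _ hlP
        linarith
      have hSc : 0 < S.card := by exact_mod_cast hSpos
      obtain ⟨q, hq⟩ := Finset.card_pos.1 hSc
      have hqm := hSm q hq
      rw [Finset.eq_empty_iff_forall_notMem]
      intro v hv
      rw [mem_Es] at hv
      have hmod : v % q < q := Nat.mod_lt v hqm.1.pos
      exact hv.2 (v % q) (by omega) q hqm.1 (hbig q hqm.2.1) (Nat.dvd_sub_mod v)
  · -- bounded X
    have hs3 : s + 1 ≤ 2 * Y₀ := by omega
    have hX2 : 2 * X < (2 * Y₀) * (2 * Y₀) :=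
      lt_of_lt_of_le hs2 (Nat.mul_le_mul hs3 hs3)
    by_cases hH2 : 2 * X < H
    · apply hempty
      rw [Finset.eq_empty_iff_forall_notMem]
      intro v hv
      rw [mem_Es] at hv
      obtain ⟨q, hq1, hq2⟩ := Nat.exists_infinite_primes (2 * X + 1)
      refine hv.2 v (by omega) q hq2 ?_ (by simp)
      nlinarith
    · have hHb : (H : ℝ) ≤ 4 * (Y₀ : ℝ) ^ 2 := by
        have h1 : H ≤ (2 * Y₀) * (2 * Y₀) := by omega
        have h2 : (H : ℝ) ≤ (((2 * Y₀) * (2 * Y₀) : ℕ) : ℝ) := by exact_mod_cast h1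
        push_cast at h2
        nlinarith
      have h3 : ((Es X H).card : ℝ) ≤ X := by exact_mod_cast Es_card X H
      refine le_trans h3 ?_
      have h4 : (X : ℝ) ≤ 4 * (Y₀ : ℝ) ^ 2 / Real.log 2 * (X * Real.log X / H) := by
        have h5 : 4 * (Y₀ : ℝ) ^ 2 / Real.log 2 * (X * Real.log X / H) =
            X * ((4 * (Y₀ : ℝ) ^ 2 / H) * (Real.log X / Real.log 2)) := by
          ring
        rw [h5]
        have h6 : (1 : ℝ) ≤ 4 * (Y₀ : ℝ) ^ 2 / H := by
          rw [le_div_iff₀ (by linarith)]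
          linarith
        have h7 : (1 : ℝ) ≤ Real.log X / Real.log 2 := by
          rw [le_div_iff₀ hlog2]
          linarith
        have h8 : (1 : ℝ) ≤ (4 * (Y₀ : ℝ) ^ 2 / H) * (Real.log X / Real.log 2) := by
          nlinarith
        nlinarith
      refine le_trans h4 ?_
      apply mul_le_mul_of_nonneg_right _ hnn
      have : 0 ≤ 6432 * C := by positivity
      linarith

end Pool.Agent.Helper4.BI
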